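import Pool.Agent.Helper30.TG.Ori

/-!
# Project TG, part CN2: the pairs at the vertices
-/

set_option autoImplicit false

namespace Pool.Agent.Helper97.TG.CN2

open Pool.Agent.Helper30.TG
open Pool.Agent.Helper30.TriFace
open scoped Classical

variable {p : ℕ → ℝ × ℝ} {n : ℕ}

lemma card_EE (n : ℕ) : (EE n).card = n.choose 2 := by
  induction n with
  | zero => simp [EE]
  | succ n ih =>
    have h : EE (n + 1) = EE n ∪ (Finset.range n).image (fun i => (i, n)) := by
      ext ⟨i, j⟩
      rw [Finset.mem_union, mem_EE, mem_EE, Finset.mem_image]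
      simp only [Finset.mem_range, Prod.mk.injEq]
      constructor
      · rintro ⟨h1, h2⟩
        by_cases hj : j < n
        · exact Or.inl ⟨h1, hj⟩
        · exact Or.inr ⟨i, by omega, rfl, by omega⟩
      · rintro (⟨h1, h2⟩ | ⟨i', h1, h2, h3⟩)
        · exact ⟨h1, by omega⟩
        · exact ⟨by omega, by omega⟩
    have hd : Disjoint (EE n) ((Finset.range n).image (fun i => (i, n))) := by
      rw [Finset.disjoint_left]
      rintro ⟨i, j⟩ h1 h2
      rw [mem_EE] at h1
      rw [Finset.mem_image] at h2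
      obtain ⟨i', -, h2⟩ := h2
      rw [Prod.mk.injEq] at h2
      simp only at h1
      omega
    rw [h, Finset.card_union_of_disjoint hd, ih,
      Finset.card_image_of_injective _ (fun a b h => (Prod.mk.inj h).1), Finset.card_range,
      Nat.choose_succ_succ' n 1, Nat.choose_one_right]
    ring

/-- the left end of a chord -/
noncomputable def Lf (p : ℕ → ℝ × ℝ) (g : ℕ × ℕ) : ℕ := if (p g.1).1 < (p g.2).1 then g.1 else g.2

lemma RG_Lf (hp : Pos p n) {g : ℕ × ℕ} (hg : g ∈ EE n) : RG p n (p (Lf p g)) g := by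
  refine ⟨hg, ?_⟩
  have h := ne_of_EE hp hg
  unfold Lf
  split_ifs with h1
  · exact Or.inl ⟨rfl, h1⟩
  · refine Or.inr (Or.inl ⟨rfl, ?_⟩)
    push Not at h1
    rcases lt_or_eq_of_le h1 with h2 | h2
    · exact h2
    · exact absurd (by rw [h2]; ring) h

lemma Lf_lt {g : ℕ × ℕ} (hg : g ∈ EE n) : Lf p g < n := by
  have := mem_EE.1 hg
  unfold Lf
  split_ifs <;> omega

/-- the left end is to the left of some vertex -/
lemma Lf_left (hp : Pos p n) {g : ℕ × ℕ} (hg : g ∈ EE n) :
    ∃ m < n, (p (Lf p g)).1 < (p m).1 := by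
  have h := (RG_Lf hp hg).2
  have hm := mem_EE.1 hg
  rcases h with ⟨-, h⟩ | ⟨-, h⟩ | h
  · exact ⟨g.2, by omega, h⟩
  · exact ⟨g.1, by omega, h⟩
  · by_contra hc
    push Not at hc
    have h1 := hc g.1 (by omega)
    have h2 := hc g.2 (by omega)
    have h3 : 0 ≤ ((p (Lf p g)).1 - (p g.1).1) * ((p (Lf p g)).1 - (p g.2).1) :=
      mul_nonneg (by linarith) (by linarith)
    exact absurd h.2 (not_lt.2 h3)

lemma slope_ne (hp : Pos p n) {g g' : ℕ × ℕ} (hg : g ∈ EE n) (hg' : g' ∈ EE n) (hne : g ≠ g')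
    (hL : Lf p g = Lf p g') : sl p g ≠ sl p g' := by
  intro hsl
  have hm := mem_EE.1 hg
  have hm' := mem_EE.1 hg'
  have ends : ∀ g ∈ EE n, ln (sl p) (ic p) g (p (Lf p g)).1 = (p (Lf p g)).2 := by
    intro g hg
    unfold Lf
    split_ifs
    · exact ln_left g
    · exact ln_right hp hg
  have hic : ic p g = ic p g' := by
    have h1 := ends g hg
    have h2 := ends g' hg'
    rw [← hL, ← h1] at h2
    unfold ln at h2
    rw [hsl] at h2
    linarith
  have hline : ∀ t, ln (sl p) (ic p) g t = ln (sl p) (ic p) g' t := by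
    intro t
    unfold ln
    rw [hsl, hic]
  obtain ⟨-, hO, -⟩ := ori p n hp
  -- the other end of g is on the line g'
  have e1 : (p g.1).2 = ln (sl p) (ic p) g' (p g.1).1 := by rw [← hline]; exact (ln_left g).symm
  have e2 : (p g.2).2 = ln (sl p) (ic p) g' (p g.2).1 := by
    rw [← hline]; exact (ln_right hp hg).symm
  have k1 : g.1 = g'.1 ∨ g.1 = g'.2 := by
    by_contra hc
    push Not at hc
    exact hO g' hg' g.1 (by omega) hc.1 hc.2 e1
  have k2 : g.2 = g'.1 ∨ g.2 = g'.2 := by
    by_contra hc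
    push Not at hc
    exact hO g' hg' g.2 (by omega) hc.1 hc.2 e2
  apply hne
  have h3 : g.1 = g'.1 ∧ g.2 = g'.2 := by omega
  exact Prod.ext h3.1 h3.2

theorem main : S_CN2 := by
  intro p n hn hp
  set B : Finset (ℕ × ℕ) := (EE n).filter fun g => ¬ ∃ g', RG p n (p (Lf p g)) g' ∧
    sl p g < sl p g' with hB
  -- the rightmost vertex
  obtain ⟨m, hm, hmax⟩ := Finset.exists_max_image (Finset.range n) (fun k => (p k).1)
    ⟨0, Finset.mem_range.2 (by omega)⟩
  have hBcard : B.card ≤ n - 1 := by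
    have h1 : B.card ≤ ((Finset.range n).erase m).card := by
      refine Finset.card_le_card_of_injOn (Lf p) ?_ ?_
      · intro g hg
        have hg' := (Finset.mem_filter.1 hg).1
        rw [Finset.mem_coe, Finset.mem_erase, Finset.mem_range]
        refine ⟨?_, Lf_lt hg'⟩
        intro h
        obtain ⟨m', hm', hlt⟩ := Lf_left hp hg'
        rw [h] at hlt
        exact absurd (hmax m' (Finset.mem_range.2 hm')) (not_le.2 hlt)
      · intro g hg g' hg' h
        by_contra hne
        have h1 := Finset.mem_filter.1 (Finset.mem_coe.1 hg)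
        have h2 := Finset.mem_filter.1 (Finset.mem_coe.1 hg')
        rcases lt_or_gt_of_ne (slope_ne hp h1.1 h2.1 hne h) with h3 | h3
        · exact h1.2 ⟨g', by rw [h]; exact RG_Lf hp h2.1, h3⟩
        · exact h2.2 ⟨g, by rw [← h]; exact RG_Lf hp h1.1, h3⟩
    rw [Finset.card_erase_of_mem hm, Finset.card_range] at h1
    exact h1
  have hinj : (EE n \ B).card ≤
      ((WW p n).filter fun xg => xg.1 ∈ (Finset.range n).image p).card := by
    refine Finset.card_le_card_of_injOn (fun g => (p (Lf p g), g)) ?_ ?_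
    · intro g hg
      have hg' := Finset.mem_sdiff.1 (Finset.mem_coe.1 hg)
      have h1 : ∃ g', RG p n (p (Lf p g)) g' ∧ sl p g < sl p g' := by
        by_contra hc
        exact hg'.2 (Finset.mem_filter.2 ⟨hg'.1, hc⟩)
      have h2 : p (Lf p g) ∈ (Finset.range n).image p :=
        Finset.mem_image_of_mem _ (Finset.mem_range.2 (Lf_lt hg'.1))
      rw [Finset.mem_coe, Finset.mem_filter]
      refine ⟨?_, h2⟩
      unfold WW
      rw [Finset.mem_filter, Finset.mem_product]
      exact ⟨⟨Finset.mem_union_right _ h2, hg'.1⟩, RG_Lf hp hg'.1, h1⟩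
    · intro g _ g' _ h
      exact (Prod.mk.inj h).2
  have h1 : (EE n).card - B.card ≤ (EE n \ B).card := Finset.le_card_sdiff _ _
  rw [card_EE] at h1
  obtain ⟨k, rfl⟩ : ∃ k, n = k + 1 := ⟨n - 1, by omega⟩
  rw [Nat.choose_succ_succ' k 1, Nat.choose_one_right] at h1
  simp only [Nat.add_sub_cancel] at hBcard ⊢
  have h2 : k.choose (1 + 1) = k.choose 2 := rfl
  omega

end Pool.Agent.Helper97.TG.CN2
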