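import Pool.Agent.Helper30.TG.Spec

/-!
# Project TG, part QUAD: a quadrangular cell has at least two good sides
-/

set_option autoImplicit false

namespace Pool.Agent.Helper97.TG.QUAD

open Pool.Agent.Helper30.TG
open Pool.Agent.Helper30.TriFace
open scoped Classical

theorem perm1 {p q r s : Prop} : p ∨ q ∨ r ∨ s → p ∨ s ∨ q ∨ r := by tauto

theorem perm2 {p q r s : Prop} : p ∨ q ∨ r ∨ s → q ∨ r ∨ p ∨ s := by tauto

theorem perm3 {p q r s : Prop} : p ∨ q ∨ r ∨ s → q ∨ r ∨ s ∨ p := by tauto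

theorem main (hGE3 : S_GE3) (hNB : S_NB) (hOPP : S_OPP) (hPAIR : S_PAIR) : S_QUAD := by
  intro ι a b E U hD hBC h4
  obtain ⟨-, hU1, hU2⟩ := hGE3 a b E U hD hBC
  by_contra hcon
  push Not at hcon
  -- bad sides
  have hbad : ∀ e ∈ Bd a b E U \ GB a b E U, ∃ g h, Tig a b E U e g h ∧ ¬ Nrw a U e g h := by
    intro e he
    rw [Finset.mem_sdiff] at he
    obtain ⟨he1, he2⟩ := he
    unfold Bd at he1
    rw [Finset.mem_filter] at he1
    obtain ⟨heE, het⟩ := he1
    unfold GB at he2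
    rw [Finset.mem_filter] at he2
    have h1 : ¬ Good a b E U e := fun h => he2 ⟨heE, h⟩
    unfold Good at h1
    push Not at h1
    obtain ⟨g, h, t0, t1, t, hT, h0, h1', hE, hN⟩ := h1 het
    exact ⟨g, h, ⟨t0, t1, t, hT, h0, h1', hE⟩, hN⟩
  have hcard : 3 ≤ (Bd a b E U \ GB a b E U).card := by
    have := Finset.le_card_sdiff (GB a b E U) (Bd a b E U)
    omega
  have hne : (Bd a b E U \ GB a b E U).Nonempty := Finset.card_pos.1 (by omega)
  obtain ⟨e, he⟩ := hne
  obtain ⟨g, h, hT, hN⟩ := hbad e he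
  have heB : e ∈ Bd a b E U := (Finset.mem_sdiff.1 he).1
  obtain ⟨t0, t1, t, hTt, ht0, ht1, hEt⟩ := id hT
  obtain ⟨hgh, hgB, hhB, -⟩ := hNB a b E U e g h t0 t1 t hD hTt ht0 ht1 hEt
  have hge : g ≠ e := hTt.2.2.2.1
  have hhe : h ≠ e := hTt.2.2.2.2.1
  -- the fourth side
  obtain ⟨f, hfB, hf⟩ : ∃ f ∈ Bd a b E U, f ∉ ({e, g, h} : Finset ι) := by
    by_contra hc
    push Not at hc
    have h1 : Bd a b E U ⊆ {e, g, h} := hc
    have h2 := Finset.card_le_card h1
    have h3 : ({e, g, h} : Finset ι).card ≤ 3 := Finset.card_le_three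
    omega
  rw [Finset.mem_insert, Finset.mem_insert, Finset.mem_singleton] at hf
  push Not at hf
  obtain ⟨hfe, hfg, hfh⟩ := hf
  have hB : Bd a b E U = {e, g, h, f} := by
    symm
    apply Finset.eq_of_subset_of_card_le
    · intro x hx
      simp only [Finset.mem_insert, Finset.mem_singleton] at hx
      rcases hx with rfl | rfl | rfl | rfl <;> assumption
    · rw [h4]
      have : ({e, g, h, f} : Finset ι).card = 4 := by
        rw [Finset.card_insert_of_notMem, Finset.card_insert_of_notMem,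
          Finset.card_insert_of_notMem, Finset.card_singleton]
        · simp only [Finset.mem_singleton]
          exact fun h => hfh h.symm
        · simp only [Finset.mem_insert, Finset.mem_singleton]
          rintro (h | h)
          · exact hgh h
          · exact hfg h.symm
        · simp only [Finset.mem_insert, Finset.mem_singleton]
          rintro (h | h | h)
          · exact hge h.symm
          · exact hhe h.symm
          · exact hfe h.symm
      omega
  have hin : e ∈ U ∨ g ∈ U ∨ h ∈ U ∨ f ∈ U := by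
    obtain ⟨x, hx, hxU⟩ := hU1
    rw [hB] at hx
    simp only [Finset.mem_insert, Finset.mem_singleton] at hx
    rcases hx with h | h | h | h
    · exact Or.inl (h ▸ hxU)
    · exact Or.inr (Or.inl (h ▸ hxU))
    · exact Or.inr (Or.inr (Or.inl (h ▸ hxU)))
    · exact Or.inr (Or.inr (Or.inr (h ▸ hxU)))
  have hout : e ∉ U ∨ g ∉ U ∨ h ∉ U ∨ f ∉ U := by
    obtain ⟨x, hx, hxU⟩ := hU2
    rw [hB] at hx
    simp only [Finset.mem_insert, Finset.mem_singleton] at hx
    rcases hx with h | h | h | h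
    · exact Or.inl (h ▸ hxU)
    · exact Or.inr (Or.inl (h ▸ hxU))
    · exact Or.inr (Or.inr (Or.inl (h ▸ hxU)))
    · exact Or.inr (Or.inr (Or.inr (h ▸ hxU)))
  by_cases hfS : f ∈ Bd a b E U \ GB a b E U
  · obtain ⟨x, y, hT', hN'⟩ := hbad f hfS
    obtain ⟨h1, -, -⟩ := hOPP a b E U e g h f x y hD hBC.1 hBC.2.1 hfe hfg hfh hB hT
    rcases hPAIR a b E U e g h f x y hD hfe.symm hT hT' (h1 hT') (perm1 hin) (perm1 hout) with h2 | h2
    · exact hN h2
    · exact hN' h2
  · have hS : ({e, g, h} : Finset ι) = Bd a b E U \ GB a b E U := by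
      symm
      apply Finset.eq_of_subset_of_card_le
      · intro x hx
        have hx1 := (Finset.mem_sdiff.1 hx).1
        rw [hB] at hx1
        simp only [Finset.mem_insert, Finset.mem_singleton] at hx1 ⊢
        rcases hx1 with rfl | rfl | rfl | rfl
        · exact Or.inl rfl
        · exact Or.inr (Or.inl rfl)
        · exact Or.inr (Or.inr rfl)
        · exact absurd hx hfS
      · exact le_trans Finset.card_le_three hcard
    have hgS : g ∈ Bd a b E U \ GB a b E U := by rw [← hS]; simp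
    have hhS : h ∈ Bd a b E U \ GB a b E U := by rw [← hS]; simp
    obtain ⟨x, y, hTg, hNg⟩ := hbad g hgS
    obtain ⟨x', y', hTh, hNh⟩ := hbad h hhS
    obtain ⟨-, h2, -⟩ := hOPP a b E U e g h f x y hD hBC.1 hBC.2.1 hfe hfg hfh hB hT
    obtain ⟨-, -, h3⟩ := hOPP a b E U e g h f x' y' hD hBC.1 hBC.2.1 hfe hfg hfh hB hT
    have h2' := h2 hTg
    have h3' := h3 hTh
    have hxy : (x' = x ∧ y' = y) ∨ (x' = y ∧ y' = x) := by
      rcases h2' with ⟨h21, h22⟩ | ⟨h21, h22⟩ <;> rcases h3' with ⟨h31, h32⟩ | ⟨h31, h32⟩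
      · exact Or.inl ⟨h31.trans h21.symm, h32.trans h22.symm⟩
      · exact Or.inr ⟨h31.trans h22.symm, h32.trans h21.symm⟩
      · exact Or.inr ⟨h31.trans h22.symm, h32.trans h21.symm⟩
      · exact Or.inl ⟨h31.trans h21.symm, h32.trans h22.symm⟩
    have hxe : (x = e ∧ y = f) ∨ (x = f ∧ y = e) := h2'
    have hA : g ∈ U ∨ h ∈ U ∨ x ∈ U ∨ y ∈ U := by
      rcases hxe with ⟨hx, hy⟩ | ⟨hx, hy⟩
      · rw [hx, hy]; exact perm2 hin
      · rw [hx, hy]; exact perm3 hin
    have hB' : g ∉ U ∨ h ∉ U ∨ x ∉ U ∨ y ∉ U := by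
      rcases hxe with ⟨hx, hy⟩ | ⟨hx, hy⟩
      · rw [hx, hy]; exact perm2 hout
      · rw [hx, hy]; exact perm3 hout
    rcases hPAIR a b E U g x y h x' y' hD hgh hTg hTh hxy hA hB' with h4 | h4
    · exact hNg h4
    · exact hNh h4

end Pool.Agent.Helper97.TG.QUAD
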