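import Pool.Agent.Helper30.TG.Ori

/-!
# Project TG, part NZ: a line meeting the open chord `e` comes from a crossing chord
-/

set_option autoImplicit false

namespace Pool.Agent.Helper97.TG.NZ

open Pool.Agent.Helper30.TG
open Pool.Agent.Helper30.TriFace
open scoped Classical

variable {p : ℕ → ℝ × ℝ} {n : ℕ}

/-- parameter on the line of a chord -/
lemma det3_at (hp : Pos p n) {e : ℕ × ℕ} (he : e ∈ EE n) (t : ℝ) (x y : ℝ × ℝ) :
    det3 x y (t, ln (sl p) (ic p) e t) =
      (1 - (t - (p e.1).1) / ((p e.2).1 - (p e.1).1)) * det3 x y (p e.1) +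
        (t - (p e.1).1) / ((p e.2).1 - (p e.1).1) * det3 x y (p e.2) := by
  have h := ne_of_EE hp he
  rw [← det3_comb x y (p e.1) (p e.2)
    (s := 1 - (t - (p e.1).1) / ((p e.2).1 - (p e.1).1))
    (t := (t - (p e.1).1) / ((p e.2).1 - (p e.1).1)) (by ring)]
  congr 1
  have hs : sl p e * ((p e.2).1 - (p e.1).1) = (p e.2).2 - (p e.1).2 := by
    unfold sl
    field_simp
  ext
  · simp only [Prod.fst_add, Prod.smul_fst, smul_eq_mul]
    field_simp
    ring
  · simp only [Prod.snd_add, Prod.smul_snd, smul_eq_mul]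
    unfold ln ic
    field_simp
    linear_combination (t - (p e.1).1) * hs

lemma sign_in (hp : Pos p n) {a b x : ℕ} (hab : a < b) (hb : b < n) (hx : x < n) (hxa : x ≠ a)
    (hxb : x ≠ b) : (det3 (p a) (p b) (p x) < 0 ∧ a < x ∧ x < b) ∨
      (0 < det3 (p a) (p b) (p x) ∧ (x < a ∨ b < x)) := by
  by_cases h : a < x ∧ x < b
  · exact Or.inl ⟨det3_in hp hab hb h.1 h.2, h⟩
  · have h' : x < a ∨ b < x := by omega
    exact Or.inr ⟨det3_out hp hab hb hx h', h'⟩

lemma det3_fst (a b : ℝ × ℝ) : det3 a b a = 0 := det3_left a b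

theorem main : S_NZ := by
  intro p n hn hp e he t ht k hk hke hkt
  obtain ⟨i, j⟩ := e
  obtain ⟨a, b⟩ := k
  have he' := mem_EE.1 he
  have hk' := mem_EE.1 hk
  simp only at he' hk' ht
  obtain ⟨hij, hj⟩ := he'
  obtain ⟨hab, hb⟩ := hk'
  have hne := ne_of_EE hp he
  have hne' := ne_of_EE hp hk
  simp only at hne hne'
  set r : ℝ := (t - (p i).1) / ((p j).1 - (p i).1) with hr
  set r' : ℝ := (t - (p a).1) / ((p b).1 - (p a).1) with hr'
  have hri : r * ((p j).1 - (p i).1) = t - (p i).1 := by rw [hr]; field_simp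
  have hri' : r' * ((p b).1 - (p a).1) = t - (p a).1 := by rw [hr']; field_simp
  have hrr : 0 < r * (1 - r) := by
    have h1 : r * (1 - r) * ((p j).1 - (p i).1) ^ 2 = -((t - (p i).1) * (t - (p j).1)) := by
      have h2 : (1 - r) * ((p j).1 - (p i).1) = (p j).1 - t := by linarith
      calc r * (1 - r) * ((p j).1 - (p i).1) ^ 2 =
          (r * ((p j).1 - (p i).1)) * ((1 - r) * ((p j).1 - (p i).1)) := by ring
        _ = (t - (p i).1) * ((p j).1 - t) := by rw [hri, h2]
        _ = _ := by ring
    have h3 : 0 < r * (1 - r) * ((p j).1 - (p i).1) ^ 2 := by rw [h1]; linarith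
    exact (mul_pos_iff_of_pos_right (by positivity)).1 h3
  have hr0 : 0 < r := by nlinarith
  have hr1 : 0 < 1 - r := by nlinarith
  -- first determinant relation
  have hD : (1 - r) * det3 (p a) (p b) (p i) + r * det3 (p a) (p b) (p j) = 0 := by
    have h1 := det3_at hp he t (p a) (p b)
    have h2 := det3_ln hp hk (t, ln (sl p) (ic p) (i, j) t)
    simp only at h1 h2
    rw [hkt, sub_self, mul_zero] at h2
    rw [h2] at h1
    exact h1.symm
  have hE : (1 - r') * det3 (p i) (p j) (p a) + r' * det3 (p i) (p j) (p b) = 0 := by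
    have h1 := det3_at hp hk t (p i) (p j)
    have h2 := det3_ln hp he (t, ln (sl p) (ic p) (a, b) t)
    simp only at h1 h2
    rw [hkt, sub_self, mul_zero] at h2
    rw [hkt] at h1
    rw [h2] at h1
    exact h1.symm
  -- no common vertices
  have zz : ∀ x, x = a ∨ x = b → det3 (p a) (p b) (p x) = 0 := by
    rintro x (rfl | rfl)
    · exact det3_left _ _
    · exact det3_right _ _
  have hi0 : i ≠ a ∧ i ≠ b := by
    by_contra hc
    have h1 : i = a ∨ i = b := by omega
    have h2 := zz i h1
    rw [h2, mul_zero, zero_add] at hD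
    have h3 : det3 (p a) (p b) (p j) = 0 := by
      rcases mul_eq_zero.1 hD with h | h
      · exact absurd h hr0.ne'
      · exact h
    have h4 : j = a ∨ j = b := by
      by_contra hc2
      exact det3_ne_zero hp hab hb hj (by omega) (by omega) h3
    apply hke
    have : a = i ∧ b = j := by omega
    rw [this.1, this.2]
  have hj0 : j ≠ a ∧ j ≠ b := by
    by_contra hc
    have h1 : j = a ∨ j = b := by omega
    have h2 := zz j h1
    rw [h2, mul_zero, add_zero] at hD
    have h3 : det3 (p a) (p b) (p i) = 0 := by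
      rcases mul_eq_zero.1 hD with h | h
      · exact absurd h hr1.ne'
      · exact h
    exact det3_ne_zero hp hab hb (by omega) hi0.1 hi0.2 h3
  -- crossing
  have hcross : (i < a ∧ a < j ∧ j < b) ∨ (a < i ∧ i < b ∧ b < j) := by
    rcases sign_in hp hab hb (by omega : i < n) hi0.1 hi0.2 with ⟨h1, h2, h3⟩ | ⟨h1, h2⟩
    · rcases sign_in hp hab hb hj hj0.1 hj0.2 with ⟨h4, h5, h6⟩ | ⟨h4, h5⟩
      · exfalso
        have e1 := mul_neg_of_pos_of_neg hr1 h1
        have e2 := mul_neg_of_pos_of_neg hr0 h4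
        linarith
      · right
        omega
    · rcases sign_in hp hab hb hj hj0.1 hj0.2 with ⟨h4, h5, h6⟩ | ⟨h4, h5⟩
      · left
        omega
      · exfalso
        have e1 := mul_pos hr1 h1
        have e2 := mul_pos hr0 h4
        linarith
  have hEE : det3 (p i) (p j) (p a) * det3 (p i) (p j) (p b) < 0 := by
    rcases hcross with ⟨h1, h2, h3⟩ | ⟨h1, h2, h3⟩
    · exact mul_neg_of_neg_of_pos (det3_in hp hij hj h1 h2) (det3_out hp hij hj hb (Or.inr h3))
    · exact mul_neg_of_pos_of_neg (det3_out hp hij hj (by omega) (Or.inl h1))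
        (det3_in hp hij hj h2 h3)
  have hEa : det3 (p i) (p j) (p a) ≠ 0 := by
    intro h
    rw [h, zero_mul] at hEE
    exact lt_irrefl _ hEE
  have hr'0 : r' ≠ 0 := by
    intro h
    rw [h, sub_zero, one_mul, zero_mul, add_zero] at hE
    exact hEa hE
  have hrr' : 0 < r' * (1 - r') := by
    have h1 : r' * (1 - r') * (det3 (p i) (p j) (p a)) ^ 2 =
        -(r' ^ 2 * (det3 (p i) (p j) (p a) * det3 (p i) (p j) (p b))) := by
      linear_combination (r' * det3 (p i) (p j) (p a)) * hE
    have h2 : 0 < r' ^ 2 := by positivity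
    have h3 : 0 < r' * (1 - r') * (det3 (p i) (p j) (p a)) ^ 2 := by
      rw [h1]
      have := mul_neg_of_pos_of_neg h2 hEE
      linarith
    exact (mul_pos_iff_of_pos_right (by positivity)).1 h3
  have hOk : (t - (p a).1) * (t - (p b).1) < 0 := by
    have h2 : (1 - r') * ((p b).1 - (p a).1) = (p b).1 - t := by linarith
    have h1 : (t - (p a).1) * (t - (p b).1) = -(r' * (1 - r') * ((p b).1 - (p a).1) ^ 2) := by
      calc (t - (p a).1) * (t - (p b).1) = -((t - (p a).1) * ((p b).1 - t)) := by ring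
        _ = -((r' * ((p b).1 - (p a).1)) * ((1 - r') * ((p b).1 - (p a).1))) := by rw [hri', h2]
        _ = _ := by ring
    rw [h1]
    have : 0 < ((p b).1 - (p a).1) ^ 2 := by positivity
    have := mul_pos hrr' this
    linarith
  have hOe : On p (i, j) (t, ln (sl p) (ic p) (i, j) t) := ⟨rfl, ht⟩
  have hOk' : On p (a, b) (t, ln (sl p) (ic p) (i, j) t) := ⟨hkt.symm, hOk⟩
  -- slopes
  have hsl : sl p (i, j) - sl p (a, b) ≠ 0 := by
    intro h
    have h1 := det3_ln hp he (p a)
    have h2 : ln (sl p) (ic p) (a, b) (p a).1 = (p a).2 := ln_left (p := p) (a, b)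
    have h3 : ln (sl p) (ic p) (i, j) (p a).1 = ln (sl p) (ic p) (a, b) (p a).1 := by
      unfold ln at hkt ⊢
      have h4 : sl p (i, j) = sl p (a, b) := by linarith
      rw [h4] at hkt ⊢
      linarith
    simp only at h1
    rw [h3, h2, sub_self, mul_zero] at h1
    exact hEa h1
  have hipt : ipt p (i, j) (a, b) = (t, ln (sl p) (ic p) (i, j) t) := by
    have h1 : (ic p (a, b) - ic p (i, j)) / (sl p (i, j) - sl p (a, b)) = t := by
      rw [div_eq_iff hsl]
      unfold ln at hkt
      linarith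
    unfold ipt
    rw [h1]
  refine ⟨?_, ?_, hOe, hOk', ?_⟩
  · intro h
    have := (mem_PE.1 h).2.2
    simp only at this
    omega
  · intro h
    have := (mem_PE.1 h).2.2
    simp only at this
    omega
  · unfold Xc
    rw [Finset.mem_image]
    refine ⟨((i, j), (a, b)), ?_, hipt⟩
    rw [Finset.mem_filter, Finset.mem_product]
    refine ⟨⟨he, hk⟩, fun h => hke h.symm, ?_, ?_⟩
    · show On p (i, j) (ipt p (i, j) (a, b))
      rw [hipt]; exact hOe
    · show On p (a, b) (ipt p (i, j) (a, b))
      rw [hipt]; exact hOk'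

end Pool.Agent.Helper97.TG.NZ
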